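import Pool.Agent.Work.MP_f194bb_nt.Deg

/-!
# The sums `K_n` vanish on 2-cocycles with functions of small degree

`L` is a lattice, `K` a field of elliptic functions for it (for instance `ℚ(E)`), `n = p + 4`.
`CocycleI p f g` is condition (i): `∑ {f i}_{n-2} ⊗ (f i ∧ g i) = 0` in `B_{n-2}(K) ⊗ Λ² K*`.
If all the `f i` have degree at most `d` and `n ≥ 8 d² + 2 d + 4`, then
`∑ K_n((g i), (f i), (1 - f i)) = 0`, whatever the number of terms and the `g i`.
-/

namespace Pool.Agent.Results.MP_f194bb_nt.BoundedDegree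

open Pool.Agent.F194

universe u

theorem result (L : PeriodPair) {K : Type u} [Field K] (ρ : EllRep L K) (p : ℕ)
    {ι : Type} [Fintype ι] (f g : ι → Kˣ) (h : CocycleI p f g) (d : ℕ)
    (hd : ∀ i, degE L (ρ.ev (f i : K)) ≤ d) (hp : 8 * d ^ 2 + 2 * d ≤ p) :
    ∑ i, Ksum L (p + 1) (pr L (dv (ρ.ev (g i : K)))) (pr L (dv (ρ.ev (f i : K))))
      (pr L (dv (ρ.ev (1 - f i : K)))) = 0 :=
  bounded_degree ρ p f g h d hd hp

end Pool.Agent.Results.MP_f194bb_nt.BoundedDegree
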