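import Pool.Agent.Work.MP_f194bb_nt.Y.Fin

/-!
# The lattice sums `K_n` for odd `n` are elementary integrals over the real points

`L` is the period lattice of an elliptic curve `E : y² = 4x³ - g₂ x - g₃` with rational `g₂, g₃`, with a
basis `ω₁ > 0`, `Im ω₂ < 0` (`RL L`), and `K` is a field of elliptic functions for `L`, generated by
`x = ℘`, `y = ℘'`, that is `K = ℚ(E)`.  `n = q + 3` is odd, `n ≥ 5`.  For every 2-cocycle
`∑ {f i}_{n-1} ⊗ g i` of weight `n` (`CocycleI` is condition (i), `CocycleII` is condition (ii)) the sum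
`∑ K_n((g i), (f i), (1 - f i))` is `-A^{1-n} ω₁⁻¹` times the integral of
`∑ log|g i| log^{n-3} |f i| (log|f i| d log|1 - f i| - log|1 - f i| d log|f i|)`
over a component of `E(ℝ)`: the line `Im z = c`, where `2 c i` is a period.
-/

open scoped PeriodPair
open Filter Topology

namespace Pool.Agent.Results.MP_f194bb_nt.OddWeights

open Pool.Agent.F194 Pool.Agent.F194.Y

universe u

theorem result {L : PeriodPair} (hL : RL L) (h2 : ∃ a : ℚ, L.g₂ = a) (h3 : ∃ a : ℚ, L.g₃ = a)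
    {K : Type u} [Field K] (ρ : EllRep L K) (x y : K)
    (hK : Subfield.closure ({x, y} : Set K) = ⊤)
    (hx : ρ.ev x =ᶠ[codiscrete ℂ] ℘[L]) (hy : ρ.ev y =ᶠ[codiscrete ℂ] ℘'[L])
    {q : ℕ} (hq : Even q) (hq2 : 2 ≤ q) {ι : Type} [Fintype ι] (f g : ι → Kˣ)
    (hI : CocycleI (q - 1) f g) (hII : CocycleII q ρ f g)
    (c : ℝ) (hc : (2 * c * Complex.I : ℂ) ∈ L.lattice) :
    ∑ i, Ksum L q (pr L (dv (ρ.ev (g i : K)))) (pr L (dv (ρ.ev (f i : K))))
      (pr L (dv (ρ.ev (1 - (f i : K))))) =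
      -(((areaA L) ^ (q + 2) * (L.ω₁.re : ℂ))⁻¹ *
        ((∫ t in (0 : ℝ)..L.ω₁.re, EI ρ q f g c t : ℝ) : ℂ)) :=
  main hL h2 h3 ρ x y hK hx hy hq hq2 f g hI hII c hc

end Pool.Agent.Results.MP_f194bb_nt.OddWeights
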