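import Pool.Agent.Work.MP_f194bb_nt.Groups

/-!
# The sums `K_n` vanish on 2-cocycles with functions from few rational subfields

`L` is a lattice, `K` a field of elliptic functions for it (for instance `ℚ(E)`), `n = p + 4`.
`CocycleI p f g` is condition (i): `∑ {f i}_{n-2} ⊗ (f i ∧ g i) = 0` in `B_{n-2}(K) ⊗ Λ² K*`.
The `f i` are divided into groups by `c : ι → J`; two functions of one group are rational functions
of one elliptic function (`RatGroups`). Suppose either that there are at most `n - 3` groups and
that the divisors of the functions of two groups span spaces which meet only in `0` (`Apart`), or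
that there is no relation between the symbols of weight `n - 2` of the `f i` across the groups
(`NoCross`). Then `∑ K_n((g i), (f i), (1 - f i)) = 0`, whatever the number of terms and the `g i`.
With one group: this holds as soon as all the `f i` lie in one field `ℂ(h)`.
-/

namespace Pool.Agent.Results.MP_f194bb_nt.RationalGroups

open Pool.Agent.F194

universe u v

theorem result (L : PeriodPair) {K : Type u} [Field K] (ρ : EllRep L K) (p : ℕ)
    {ι : Type} [Fintype ι] (f g : ι → Kˣ) (h : CocycleI p f g)
    {J : Type v} [Fintype J] [DecidableEq J] (c : ι → J)
    (hc : RatGroups ρ f c) (hJ : Apart ρ p f c ∨ NoCross ρ p f c) :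
    ∑ i, Ksum L (p + 1) (pr L (dv (ρ.ev (g i : K)))) (pr L (dv (ρ.ev (f i : K))))
      (pr L (dv (ρ.ev (1 - f i : K)))) = 0 :=
  groups_main ρ p f g h c hc hJ

end Pool.Agent.Results.MP_f194bb_nt.RationalGroups
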