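import Pool.Agent.Work.MP_f194bb_nt.X.Fin
import Pool.Agent.Work.MP_f194bb_nt.X.FF
import Pool.Agent.Work.MP_f194bb_nt.X.Lat

/-!
# A non-degenerate 2-cocycle of weight 5 on the curves with an isogeny to `X_1(11)`

`E = X_1(11)` is the curve `v (v + 1) = x (x + 1)^2`; `XL L` says that `L` is its period lattice for
the differential `dx/(2v+1)`, with a basis of the usual shape, and then `x = px L`, `v = pv L` as
functions on `ℂ`.  The four units `x, x + 1, v - x, v` have their divisors on the five rational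
torsion points.  The tables `eT`, `wT`, `cT`, `sT`, `sT'` of `X/Data.lean` give 30 functions
`f i = ± x^a (x+1)^b (v-x)^c v^d` for which `1 - f i` is of the same shape, and 30 functions `g i`.

`L'` is a sublattice of finite index (so `ℂ/L'` is any elliptic curve with an isogeny to `E`), and `K`
is any field of elliptic functions for `L'` which contains `x` and `v`.  Then for some `N ≥ 1` the
`f i`, `g i ^ N` satisfy the conditions (i) and (ii) of a 2-cocycle for `n = 5`, and
`∑ K_5((g i ^ N), (f i), (1 - f i))` is not zero.  It is evaluated as an integral over the real points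
of `E` of the elementary form
`∑ log|g i| log² |f i| (log|f i| d log|1 - f i| - log|1 - f i| d log|f i|)`.

The first two parts say that there are such `L` and (for `L' = L`) such `K`: the field generated by
`x` and `v`, that is `ℚ(E)`.
-/

open Filter Topology

namespace Pool.Agent.Results.MP_f194bb_nt.WeightFive

open Pool.Agent.F194 Pool.Agent.F194.X

universe u

theorem result :
    (∃ L : PeriodPair, XL L) ∧
    (∀ L : PeriodPair, XL L → ∃ (K : Type) (_ : Field K) (ρ : EllRep L K) (x v : K),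
      Subfield.closure ({x, v} : Set K) = ⊤ ∧ ρ.ev x =ᶠ[codiscrete ℂ] px L ∧
      ρ.ev v =ᶠ[codiscrete ℂ] pv L) ∧
    ∀ L L' : PeriodPair, XL L → L'.lattice ≤ L.lattice → 0 < (L'.ω₁ / L'.ω₂).im →
      ∀ (K : Type u) [Field K] (ρ : EllRep L' K) (x v : K),
      ρ.ev x =ᶠ[codiscrete ℂ] px L → ρ.ev v =ᶠ[codiscrete ℂ] pv L →
      ∃ (N : ℕ) (f g : Fin 30 → Kˣ), N ≠ 0 ∧
        (∀ i, (f i : K) = (sT i : K) * mon (uv x v) (eT i)) ∧
        (∀ i, 1 - (f i : K) = (sT' i : K) * mon (uv x v) (wT i)) ∧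
        (∀ i, (g i : K) = mon (uv x v) (cT i) ^ N) ∧
        CocycleI 1 f g ∧ CocycleII ρ f g ∧
        ∑ i, Ksum L' 2 (pr L' (dv (ρ.ev (g i : K)))) (pr L' (dv (ρ.ev (f i : K))))
          (pr L' (dv (ρ.ev (1 - (f i : K))))) =
        -(N : ℂ) * (((areaA L') ^ 4 * (L.ω₁.re : ℂ))⁻¹ *
          ((∫ t in (0 : ℝ)..L.ω₁.re, I0 L t : ℝ) : ℂ)) ∧
        ∑ i, Ksum L' 2 (pr L' (dv (ρ.ev (g i : K)))) (pr L' (dv (ρ.ev (f i : K))))
          (pr L' (dv (ρ.ev (1 - (f i : K))))) ≠ 0 :=
  ⟨exists_XL, fun _ hL => exists_rep hL, fun _ _ hL hs ho _ _ ρ x v hx hv =>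
    main hL hs ho ρ x v hx hv⟩

end Pool.Agent.Results.MP_f194bb_nt.WeightFive
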